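import Pool.Agent.N172.HS.Pr

/-!
# Representations supported on the primes of an extension, and the product of two varieties:
definitions
-/

set_option autoImplicit false

namespace Pool.Agent.L7h11.GG

open NumberField Complex Filter Topology IsDedekindDomain Polynomial
open Pool.Agent.N172.HS
open Pool.Agent.W353.EF (IsFrobenius IsEulerSystem LFun size)

variable {K : Type} [Field K] [NumberField K]

/-- The trace of the Frobenius at `v` on `σ` is zero for almost all primes `v` of `K` which have no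
prime of `F` of degree one over `K` above them.  For example `σ` is induced from the Weil group of
`F`. -/
def SupportedOn (σ : WRep K) (F : Type) [Field F] [NumberField F] [Algebra K F] : Prop :=
  ∀ᶠ v : HeightOneSpectrum (𝓞 K) in cofinite, above F v = ∅ → σ.trace v = 0

/-- The representation `Ind χ` of the Weil group of `K` induced from a Hecke character `χ` of `F`. -/
noncomputable def ind (K : Type) [Field K] [NumberField K] {F : Type} [Field F] [NumberField F]
    [Algebra K F] {𝔣 : Ideal (𝓞 F)} {k : (F →+* ℂ) → ℤ} {t : (F →+* ℂ) → ℝ}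
    {χ : Ideal (𝓞 F) →*₀ ℂ} (h : IsHecke 𝔣 k t χ) : WRep K where
  r := 1
  F _ := F
  𝔣 _ := 𝔣
  k _ := k
  t _ := t
  χ _ := χ
  hecke _ := h
  c _ := 1

/-- `H¹(Y)(1/2)` is the sum of the representations `σ j` of the Weil group of `K`: at almost all primes
the trace of the geometric Frobenius on `H¹(Y)` is `q^{1/2} ∑ tr σ j`. -/
def IsH1 (Y : Variety K) {s : ℕ} (σ : Fin s → WRep K) : Prop :=
  ∀ᶠ v : HeightOneSpectrum (𝓞 K) in cofinite, ∃ β : Fin (Y.betti 1) → ℂ,
    IsFrobenius Y.eqs Y.dim 1 v β ∧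
    ∑ l, β l = (Ideal.absNorm v.asIdeal : ℂ) ^ (((1 : ℕ) : ℂ) / 2) * ∑ j, (σ j).trace v

/-- The polynomials `B v` are the Euler factors of `L₂(X × Y, s)`, by the formula of Künneth for
geometrically connected `X` and `Y`: `H²(X × Y) = H²(X) + H²(Y) + H¹(X) ⊗ H¹(Y)`.  At finitely many
primes `B v` is an arbitrary polynomial, and no factor `1 / B_v(q_v^{-s})` has a pole at `s = 2`. -/
def IsL2 (X Y : Variety K) (B : HeightOneSpectrum (𝓞 K) → ℂ[X]) : Prop :=
  (∀ᶠ v in cofinite, ∃ (α₁ : Fin (X.betti 1) → ℂ) (α₂ : Fin (X.betti 2) → ℂ)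
    (β₁ : Fin (Y.betti 1) → ℂ) (β₂ : Fin (Y.betti 2) → ℂ),
    IsFrobenius X.eqs X.dim 1 v α₁ ∧ IsFrobenius X.eqs X.dim 2 v α₂ ∧
    IsFrobenius Y.eqs Y.dim 1 v β₁ ∧ IsFrobenius Y.eqs Y.dim 2 v β₂ ∧
    ∀ z : ℂ, (B v).eval z = (∏ j, (1 - α₂ j * z)) * (∏ l, (1 - β₂ l * z)) *
      ∏ j, ∏ l, (1 - α₁ j * β₁ l * z)) ∧
  ∀ v, (B v).eval ((Ideal.absNorm v.asIdeal : ℂ) ^ (-(((2 : ℕ) : ℂ) / 2 + 1))) ≠ 0

end Pool.Agent.L7h11.GG
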