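import Pool.Agent.L7h11.GG.Prod

/-!
# Representations supported on an extension: the theorems
-/

set_option autoImplicit false
set_option linter.unusedSectionVars false

namespace Pool.Agent.L7h11.GG

open NumberField Complex Filter Topology IsDedekindDomain Asymptotics Polynomial
open Pool.Agent.N172.HS
open Pool.Agent.W353.EF (IsFrobenius IsEulerSystem LFun size)
open Pool.Agent.W353.TP (HX sysH LL LL_tendsto bdd_isLittleO push res)
open Pool.Agent.W353.NF (vx)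
open Pool.Agent.Y149.Ord (HasOrder tendsto_size)
open scoped ComplexConjugate

variable {K : Type} [Field K] [NumberField K]

/-- a limit of an eventual bound -/
theorem lim_le {f : ℝ → ℝ} {a C : ℝ} (hf : Tendsto f (𝓝[>] 0) (𝓝 a))
    (h : ∀ η : ℝ, 0 < η → ∀ᶠ ε in 𝓝[>] (0 : ℝ), f ε ≤ C + η) : a ≤ C :=
  le_of_forall_pos_le_add fun η hη => le_of_tendsto hf (h η hη)

/-- the number of exceptions -/
theorem ncard_le {s : ℕ} {u : Fin s → ℤ} {C : ℝ} (h : ∑ k, ((u k : ℤ) : ℝ) ^ 2 ≤ C) :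
    ({k | u k ≠ 0}.ncard : ℝ) ≤ C := by
  classical
  refine le_trans ?_ h
  have h1 : {k | u k ≠ 0}.ncard = (Finset.univ.filter fun k => u k ≠ 0).card := by
    rw [← Set.ncard_coe_finset]
    congr 1
    ext k
    simp
  rw [h1, Finset.card_eq_sum_ones, Nat.cast_sum, Finset.sum_filter]
  refine Finset.sum_le_sum fun k _ => ?_
  split_ifs with h2
  · have h3 : (1 : ℤ) ≤ u k ^ 2 := by
      have := Int.one_le_abs h2
      rw [← sq_abs]
      nlinarith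
    rw [Nat.cast_one]
    exact_mod_cast h3
  · exact sq_nonneg _

theorem diag_sum {s : ℕ} {σ : Fin s → WRep K} (ho : ∀ k l, k ≠ l → (σ k).inner (σ l) = 0)
    (c : Fin s → ℝ) : ∑ k, ∑ l, c k * c l * ((σ k).inner (σ l) : ℝ) =
      ∑ k, c k ^ 2 * ((σ k).inner (σ k) : ℝ) := by
  refine Finset.sum_congr rfl fun k _ => ?_
  rw [Finset.sum_eq_single k]
  · ring
  · intro l _ hl
    rw [ho k l hl.symm, Int.cast_zero, mul_zero]
  · intro h; exact absurd (Finset.mem_univ k) h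

section twist

variable {X : Variety K} {a : ℕ} (ha : a ≤ 2 * X.dim) {θ : WRep K} {N' : ℕ}
  (hθ : IsPart X a θ N') {F : Type} [Field F] [NumberField F] [Algebra K F] {s : ℕ}
  {σ : Fin s → WRep K} (hσ : ∀ k, (σ k).IsIrr ∧ SupportedOn (σ k) F)
  (ho : ∀ k l, k ≠ l → (σ k).inner (σ l) = 0)
  {B : Fin s → HeightOneSpectrum (𝓞 K) → ℂ[X]} (hB : ∀ k, IsTensor X a (σ k) (B k))

include ha hθ hσ ho hB

theorem twist_size {η : ℝ} (hη : 0 < η) : ∀ᶠ ε : ℝ in 𝓝[>] 0,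
    ∑ k, (size a (B k) ε - (σ k).inner θ) ^ 2 ≤ (N' : ℝ) ^ 2 / Nat.card (F ≃ₐ[K] F) + η := by
  have h := bessel_gen (κ := Fin s) (z := fun k ε => size a (B k) ε - (σ k).inner θ)
    (R := (N' : ℝ) ^ 2 / Nat.card (F ≃ₐ[K] F)) (G := 1) (by positivity) zero_le_one
    (g := fun k => ((σ k).inner (σ k) : ℝ)) (fun k => by
      have h1 : (σ k).inner (σ k) = 1 := (hσ k).1
      rw [h1, Int.cast_one]) (fun c η' hη' => by
      have h2 := tensor_bound ha hθ (fun k => (hσ k).2) hB c hη'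
      rwa [diag_sum ho] at h2) hη
  rwa [mul_one] at h

theorem twist_order {r : Fin s → ℤ} (hr : ∀ k, HasOrder a (B k) (-r k)) :
    ({k | r k ≠ (σ k).inner θ}.ncard : ℝ) ≤ (N' : ℝ) ^ 2 / Nat.card (F ≃ₐ[K] F) := by
  have h1 : ∑ k, (((r k - (σ k).inner θ : ℤ)) : ℝ) ^ 2 ≤
      (N' : ℝ) ^ 2 / Nat.card (F ≃ₐ[K] F) := by
    refine lim_le (f := fun ε => ∑ k, (size a (B k) ε - (σ k).inner θ) ^ 2) ?_
      (fun η hη => twist_size ha hθ hσ ho hB hη)
    refine tendsto_finsetSum _ fun k _ => ?_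
    have h2 := tendsto_size (hr k)
    rw [Int.cast_neg, neg_neg] at h2
    rw [Int.cast_sub]
    exact (h2.sub_const _).pow 2
  have h2 := ncard_le h1
  have e : {k | r k ≠ (σ k).inner θ} = {k | r k - (σ k).inner θ ≠ 0} := by
    ext k
    rw [Set.mem_ofPred_eq, Set.mem_ofPred_eq, Ne, Ne, sub_eq_zero]
  rw [e]
  exact h2

end twist

section prod

variable {X : Variety K} (hX : 1 ≤ X.dim) {θ : WRep K} {N' : ℕ} (hθ : IsPart X 1 θ N')

include hX hθ

section one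

variable {Y : Variety K} (hY : 1 ≤ Y.dim) {s : ℕ} {σ : Fin s → WRep K} (hσ : IsH1 Y σ)
  {F : Fin s → Type} [∀ j, Field (F j)] [∀ j, NumberField (F j)] [∀ j, Algebra K (F j)]
  (hF : ∀ j, SupportedOn (σ j) (F j)) {B A A' : HeightOneSpectrum (𝓞 K) → ℂ[X]}
  (hB : IsL2 X Y B) (hA : IsEulerSystem X.eqs X.dim 2 (X.betti 2) A)
  (hA' : IsEulerSystem Y.eqs Y.dim 2 (Y.betti 2) A')

include hY hσ hF hB hA hA'

theorem prod_size {η : ℝ} (hη : 0 < η) : ∀ᶠ ε : ℝ in 𝓝[>] 0, |dz θ σ B A A' ε| ≤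
    N' * ∑ j, Real.sqrt (((σ j).inner (σ j) : ℝ) / Nat.card (F j ≃ₐ[K] F j)) + η := by
  classical
  -- the parts
  set z : Fin s → ℝ → ℝ := fun j ε => EH K ε (fun x => cut X 1 θ N' x * ((σ j).tH x).re) / LL ε
    with hz
  have hL : ∀ᶠ ε : ℝ in 𝓝[>] 0, 0 < LL ε := LL_tendsto.eventually_gt_atTop 0
  have h1 : ∀ j, ∀ η' : ℝ, 0 < η' → ∀ᶠ ε : ℝ in 𝓝[>] 0, |z j ε| ≤
      N' * Real.sqrt (((σ j).inner (σ j) : ℝ) / Nat.card (F j ≃ₐ[K] F j)) + η' := by
    intro j η' hη'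
    have hg0 : (0 : ℝ) ≤ ((σ j).inner (σ j) : ℝ) :=
      HasGram.nonneg (WRep.gram Pool.Agent.N134.HS.t_nvq (σ j) (σ j))
    have h2 := corr_fn (F := F j) (abs_cut X 1 θ N') (σ j).bdd
      (WRep.gram Pool.Agent.N134.HS.t_nvq (σ j) (σ j)) (aut_pos K (F j)) (supp_tH (hF j))
      (z := z j) (by
        have h3 : (fun _ : ℝ => (0 : ℝ)) =o[𝓝[>] 0] LL := isLittleO_zero LL (𝓝[>] (0 : ℝ))
        refine h3.congr' ?_ (EventuallyEq.refl _ _)
        filter_upwards [hL] with ε h4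
        rw [hz]
        simp only
        rw [div_mul_cancel₀ _ h4.ne', sub_self]) (η := η' ^ 2) (by positivity)
    filter_upwards [h2] with ε h3
    refine abs_le_of_sq_le_sq ?_ (by positivity)
    refine h3.trans ?_
    have h4 : Real.sqrt (((σ j).inner (σ j) : ℝ) / Nat.card (F j ≃ₐ[K] F j)) ^ 2 =
        ((σ j).inner (σ j) : ℝ) / Nat.card (F j ≃ₐ[K] F j) := Real.sq_sqrt (by positivity)
    have h5 : 0 ≤ (N' : ℝ) *
        Real.sqrt (((σ j).inner (σ j) : ℝ) / Nat.card (F j ≃ₐ[K] F j)) := by positivity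
    have e : (N' * Real.sqrt (((σ j).inner (σ j) : ℝ) / Nat.card (F j ≃ₐ[K] F j)) + η') ^ 2 =
        (N' : ℝ) ^ 2 / Nat.card (F j ≃ₐ[K] F j) * ((σ j).inner (σ j) : ℝ) + η' ^ 2 +
        2 * (N' * Real.sqrt (((σ j).inner (σ j) : ℝ) / Nat.card (F j ≃ₐ[K] F j))) * η' := by
      calc _ = (N' : ℝ) ^ 2 * Real.sqrt (((σ j).inner (σ j) : ℝ) /
            Nat.card (F j ≃ₐ[K] F j)) ^ 2 + η' ^ 2 +
            2 * (N' * Real.sqrt (((σ j).inner (σ j) : ℝ) / Nat.card (F j ≃ₐ[K] F j))) * η' := by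
              ring
        _ = _ := by rw [h4]; ring
    rw [e]
    have h6 : 0 ≤ 2 * (N' * Real.sqrt (((σ j).inner (σ j) : ℝ) /
        Nat.card (F j ≃ₐ[K] F j))) * η' := by positivity
    linarith
  have h2 := l2_defect hX hY hB hθ hσ hA hA'
  have h3 : Tendsto (fun ε => dz θ σ B A A' ε - ∑ j, z j ε) (𝓝[>] 0) (𝓝 0) := by
    refine h2.tendsto_div_nhds_zero.congr' ?_
    filter_upwards [hL, self_mem_nhdsWithin] with ε h4 hε
    have hε' : (0 : ℝ) < ε := hε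
    have b2 : ∀ (j : Fin s) x, |cut X 1 θ N' x * ((σ j).tH x).re| ≤ N' * (σ j).bd :=
      fun j x => by
        rw [abs_mul]
        exact mul_le_mul (abs_cut X 1 θ N' x)
          ((Complex.abs_re_le_norm _).trans ((σ j).norm_tH_le x)) (abs_nonneg _)
          (Nat.cast_nonneg _)
    have e4 : (fun x : HX K => cut X 1 θ N' x * (∑ j, (σ j).tH x).re) =
        fun x => ∑ j, cut X 1 θ N' x * ((σ j).tH x).re := by
      funext x
      rw [Complex.re_sum, Finset.mul_sum]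
    rw [e4, EH_sum hε' Finset.univ (fun j x => cut X 1 θ N' x * ((σ j).tH x).re)
      (fun j => N' * (σ j).bd) (fun j _ x => b2 j x), sub_div, mul_div_cancel_right₀ _ h4.ne',
      Finset.sum_div]
  have hs : (0 : ℝ) < s + 1 := by positivity
  have h4 : ∀ᶠ ε : ℝ in 𝓝[>] 0, ∀ j, |z j ε| ≤
      N' * Real.sqrt (((σ j).inner (σ j) : ℝ) / Nat.card (F j ≃ₐ[K] F j)) + η / (s + 1) :=
    Filter.eventually_all.2 fun j => h1 j _ (by positivity)
  have h5 : ∀ᶠ ε : ℝ in 𝓝[>] 0, |dz θ σ B A A' ε - ∑ j, z j ε| < η / (s + 1) := by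
    have := (tendsto_order.1 h3.abs).2 (η / (s + 1)) (by rw [abs_zero]; positivity)
    exact this
  filter_upwards [h4, h5] with ε h6 h7
  have h8 : |∑ j, z j ε| ≤ ∑ j, (N' * Real.sqrt (((σ j).inner (σ j) : ℝ) /
      Nat.card (F j ≃ₐ[K] F j)) + η / (s + 1)) :=
    (Finset.abs_sum_le_sum_abs _ _).trans (Finset.sum_le_sum fun j _ => h6 j)
  rw [Finset.sum_add_distrib, ← Finset.mul_sum, Finset.sum_const, Finset.card_univ,
    Fintype.card_fin, nsmul_eq_mul] at h8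
  have h9 : |dz θ σ B A A' ε| ≤ |dz θ σ B A A' ε - ∑ j, z j ε| + |∑ j, z j ε| := by
    have := abs_add_le (dz θ σ B A A' ε - ∑ j, z j ε) (∑ j, z j ε)
    rwa [sub_add_cancel] at this
  have h10 : (s : ℝ) * (η / (s + 1)) + η / (s + 1) = η := by
    field_simp
  linarith

theorem prod_order {r r₀ r₁ : ℤ} (hr : HasOrder 2 B (-r)) (hr₀ : HasOrder 2 A (-r₀))
    (hr₁ : HasOrder 2 A' (-r₁)) :
    |(r : ℝ) - r₀ - r₁ - ∑ j, ((σ j).inner θ : ℝ)| ≤
      N' * ∑ j, Real.sqrt (((σ j).inner (σ j) : ℝ) / Nat.card (F j ≃ₐ[K] F j)) := by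
  refine lim_le (f := fun ε => |dz θ σ B A A' ε|) ?_
    (fun η hη => prod_size hX hθ hY hσ hF hB hA hA' hη)
  have h1 := tendsto_size hr
  have h2 := tendsto_size hr₀
  have h3 := tendsto_size hr₁
  rw [Int.cast_neg, neg_neg] at h1 h2 h3
  exact (((h1.sub h2).sub h3).sub_const _).abs

theorem prod_order_eq {r r₀ r₁ : ℤ} (hr : HasOrder 2 B (-r)) (hr₀ : HasOrder 2 A (-r₀))
    (hr₁ : HasOrder 2 A' (-r₁)) (hlt : N' * ∑ j, Real.sqrt (((σ j).inner (σ j) : ℝ) /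
      Nat.card (F j ≃ₐ[K] F j)) < 1) : r = r₀ + r₁ + ∑ j, (σ j).inner θ := by
  have h1 := (prod_order hX hθ hY hσ hF hB hA hA' hr hr₀ hr₁).trans_lt hlt
  have h2 : |r - r₀ - r₁ - ∑ j, (σ j).inner θ| < 1 := by exact_mod_cast h1
  have h3 := Int.abs_lt_one_iff.1 h2
  omega

end one

section many

variable {F : Type} [Field F] [NumberField F] [Algebra K F] {s : ℕ} {Y : Fin s → Variety K}
  (hY : ∀ k, 1 ≤ (Y k).dim) {σ : Fin s → WRep K} (hσ : ∀ k, IsH1 (Y k) fun _ : Fin 1 => σ k)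
  (hF : ∀ k, SupportedOn (σ k) F) (ho : ∀ k l, k ≠ l → (σ k).inner (σ l) = 0) {G : ℝ}
  (hG0 : 0 ≤ G) (hG : ∀ k, ((σ k).inner (σ k) : ℝ) ≤ G)
  {B A A' : Fin s → HeightOneSpectrum (𝓞 K) → ℂ[X]}
  (hB : ∀ k, IsL2 X (Y k) (B k)) (hA : ∀ k, IsEulerSystem X.eqs X.dim 2 (X.betti 2) (A k))
  (hA' : ∀ k, IsEulerSystem (Y k).eqs (Y k).dim 2 ((Y k).betti 2) (A' k))

include hY hσ hF ho hG0 hG hB hA hA'

theorem family_size {η : ℝ} (hη : 0 < η) : ∀ᶠ ε : ℝ in 𝓝[>] 0,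
    ∑ k, (size 2 (B k) ε - size 2 (A k) ε - size 2 (A' k) ε - (σ k).inner θ) ^ 2 ≤
      (N' : ℝ) ^ 2 * G / Nat.card (F ≃ₐ[K] F) + η := by
  classical
  have h := bessel_gen (κ := Fin s)
    (z := fun k ε => size 2 (B k) ε - size 2 (A k) ε - size 2 (A' k) ε - (σ k).inner θ)
    (R := (N' : ℝ) ^ 2 / Nat.card (F ≃ₐ[K] F)) (G := G) (by positivity) hG0
    (g := fun k => ((σ k).inner (σ k) : ℝ)) hG (fun c η' hη' => by
      have h2 := fam (F := F) (abs_cut X 1 θ N') (fun k => (σ k).bdd)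
        (fun k l => WRep.gram Pool.Agent.N134.HS.t_nvq (σ k) (σ l)) (aut_pos K F)
        (fun k => supp_tH (hF k))
        (z := fun k ε => size 2 (B k) ε - size 2 (A k) ε - size 2 (A' k) ε - (σ k).inner θ)
        (fun k => by
          have h3 := l2_defect hX (hY k) (hB k) hθ (hσ k) (hA k) (hA' k)
          refine h3.congr_left fun ε => ?_
          unfold dz
          simp only [Finset.univ_unique, Finset.sum_singleton]) c hη'
      rwa [diag_sum ho] at h2) hη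
  filter_upwards [h] with ε h1
  refine h1.trans (le_of_eq ?_)
  ring

theorem family_order {r r₀ r₁ : Fin s → ℤ} (hr : ∀ k, HasOrder 2 (B k) (-r k))
    (hr₀ : ∀ k, HasOrder 2 (A k) (-r₀ k)) (hr₁ : ∀ k, HasOrder 2 (A' k) (-r₁ k)) :
    ({k | r k ≠ r₀ k + r₁ k + (σ k).inner θ}.ncard : ℝ) ≤
      (N' : ℝ) ^ 2 * G / Nat.card (F ≃ₐ[K] F) := by
  have h1 : ∑ k, (((r k - r₀ k - r₁ k - (σ k).inner θ : ℤ)) : ℝ) ^ 2 ≤
      (N' : ℝ) ^ 2 * G / Nat.card (F ≃ₐ[K] F) := by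
    refine lim_le (f := fun ε =>
      ∑ k, (size 2 (B k) ε - size 2 (A k) ε - size 2 (A' k) ε - (σ k).inner θ) ^ 2) ?_
      (fun η hη => family_size hX hθ hY hσ hF ho hG0 hG hB hA hA' hη)
    refine tendsto_finsetSum _ fun k _ => ?_
    have h2 := tendsto_size (hr k)
    have h3 := tendsto_size (hr₀ k)
    have h4 := tendsto_size (hr₁ k)
    rw [Int.cast_neg, neg_neg] at h2 h3 h4
    push_cast
    exact (((h2.sub h3).sub h4).sub_const _).pow 2
  have h2 := ncard_le h1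
  have e : {k | r k ≠ r₀ k + r₁ k + (σ k).inner θ} =
      {k | r k - r₀ k - r₁ k - (σ k).inner θ ≠ 0} := by
    ext k
    rw [Set.mem_ofPred_eq, Set.mem_ofPred_eq]
    constructor <;> intro h h' <;> apply h <;> omega
  rw [e]
  exact h2

end many

end prod

end Pool.Agent.L7h11.GG
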