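import Pool.Agent.L7h11.GG.Supp
import Pool.Agent.L7h11.GG.Defs
import Pool.Agent.N172.HS.Pf

/-!
# Representations supported on an extension: the theorems
-/

set_option autoImplicit false
set_option linter.unusedSectionVars false

namespace Pool.Agent.L7h11.GG

open NumberField Complex Filter Topology IsDedekindDomain Asymptotics Polynomial
open Pool.Agent.N172.HS
open Pool.Agent.W353.EF (IsFrobenius IsEulerSystem LFun size)
open Pool.Agent.W353.PV (Eig)
open Pool.Agent.W353.TP (HX sysH LL LL_tendsto bdd_isLittleO push res)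
open Pool.Agent.W353.NF (vx)
open Pool.Agent.W540.BE (nm two_le_nm)
open Pool.Agent.Y149.Ord (HasOrder tendsto_size)
open Pool.Agent.H921R2.TatePole (hom_ext_of_ker)
open scoped ComplexConjugate

section supp

variable {K F : Type} [Field K] [NumberField K] [Field F] [NumberField F] [Algebra K F]

theorem above_empty {x : HX K} (h : nn K F x = 0) : above F (vx x) = ∅ := by
  classical
  by_contra hne
  obtain ⟨w, h1, h2⟩ := Set.nonempty_iff_ne_empty.2 hne
  have hfact : Fact (x.1 : ℕ).Prime := ⟨x.1.2⟩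
  have h2' : Ideal.absNorm w.asIdeal = (x.1 : ℕ) := h2.trans (absNorm_vx x)
  obtain ⟨y, hy⟩ := exists_vx w (by rw [h2']; exact x.1.2)
  have h3 : (y.1 : ℕ) = x.1 := by
    rw [← absNorm_vx y, hy, h2']
  obtain ⟨q, φ⟩ := y
  have h4 : q = x.1 := Subtype.ext h3
  subst h4
  have h6 : res K φ = x.2 := by
    apply hom_ext_of_ker
    have h5 : RingHom.ker (res K φ) = w.asIdeal.comap (algebraMap (𝓞 K) (𝓞 F)) := by
      unfold res
      rw [← RingHom.comap_ker, ← hy]
      rfl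
    rw [h5, h1]
    rfl
  obtain ⟨S, hS, hn⟩ := nn_eq K F x
  rw [hn, Nat.cast_eq_zero, Finset.card_eq_zero] at h
  have h7 := (hS φ).2 h6
  rw [h] at h7
  exact absurd h7 (Finset.notMem_empty _)

theorem supp_tH {σ : WRep K} (h : SupportedOn σ F) :
    ∀ᶠ x : HX K in cofinite, nn K F x < Nat.card (F ≃ₐ[K] F) → σ.tH x = 0 := by
  filter_upwards [eventually_HX h, nn_ge (K := K) (F := F)] with x h1 h2 h3
  rw [← WRep.trace_vx]
  exact h1 (above_empty (h2 h3))

theorem aut_pos (K F : Type) [Field K] [NumberField K] [Field F] [NumberField F] [Algebra K F] :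
    0 < Nat.card (F ≃ₐ[K] F) := by
  have hfd : FiniteDimensional K F := Module.Finite.of_restrictScalars_finite ℚ K F
  have hfin : Finite (F ≃ₐ[K] F) := inferInstance
  exact Nat.card_pos

/-- an induced representation is supported on the field -/
theorem ind_supported {𝔣 : Ideal (𝓞 F)} {k : (F →+* ℂ) → ℤ} {t : (F →+* ℂ) → ℝ}
    {χ : Ideal (𝓞 F) →*₀ ℂ} (h : IsHecke 𝔣 k t χ) : SupportedOn (ind K h) F := by
  refine Filter.Eventually.of_forall fun v hv => ?_
  unfold WRep.trace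
  refine Finset.sum_eq_zero fun j _ => ?_
  have : indTrace (K := K) (F := F) χ v = 0 := by
    unfold indTrace
    rw [hv]
    exact finsum_mem_empty
  have e : ((ind K h).c j : ℂ) * indTrace ((ind K h).χ j) v = 1 * indTrace (F := F) χ v := by
    change (((1 : ℤ) : ℂ)) * indTrace (F := F) χ v = _
    rw [Int.cast_one]
  rw [e, this, mul_zero]

open Classical in
/-- the inequality for a family -/
theorem fam {T : HX K → ℝ} {N : ℝ} (hT : ∀ x, |T x| ≤ N) {κ : Type} [Fintype κ]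
    {f : κ → HX K → ℂ} (hf : ∀ k, Bdd (f k)) {g : κ → κ → ℝ}
    (hg : ∀ k l, HasGram (f k) (f l) (g k l)) {m : ℕ} (hm : 0 < m)
    (hs : ∀ k, ∀ᶠ x : HX K in cofinite, nn K F x < m → f k x = 0) {z : κ → ℝ → ℝ}
    (hz : ∀ k, (fun ε => z k ε * LL ε - EH K ε (fun x => T x * (f k x).re)) =o[𝓝[>] 0] LL)
    (c : κ → ℝ) {η : ℝ} (hη : 0 < η) : ∀ᶠ ε : ℝ in 𝓝[>] 0, (∑ k, c k * z k ε) ^ 2 ≤
      N ^ 2 / m * ∑ k, ∑ l, c k * c l * g k l + η := by
  have hN : 0 ≤ N := (abs_nonneg _).trans (hT ((sysH K).nonempty.some))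
  refine corr_fn (F := F) hT (W := fun x => ∑ k ∈ Finset.univ, (c k : ℂ) * f k x)
    (Bdd.sum Finset.univ (fun k _ => hf k) fun k => (c k : ℂ))
    (HasGram.sum Finset.univ Finset.univ (fun k _ => hf k) (fun k _ => hf k) c c
      (fun k _ l _ => hg k l)) hm ?_ (z := fun ε => ∑ k, c k * z k ε) ?_ hη
  · filter_upwards [Filter.eventually_all.2 hs] with x hx h
    exact Finset.sum_eq_zero fun k _ => by rw [hx k h, mul_zero]
  · have h1 := finset_isLittleO (Finset.univ : Finset κ) (fun k _ => (hz k).const_mul_left (c k))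
    refine h1.congr' ?_ (EventuallyEq.refl _ _)
    filter_upwards [self_mem_nhdsWithin] with ε hε
    have hε' : (0 : ℝ) < ε := hε
    choose b hb0 hb using hf
    have e1 : (fun x => T x * (∑ k ∈ Finset.univ, (c k : ℂ) * f k x).re) =
        fun x => ∑ k, c k * (T x * (f k x).re) := by
      funext x
      rw [Complex.re_sum, Finset.mul_sum]
      refine Finset.sum_congr rfl fun k _ => ?_
      rw [Complex.re_ofReal_mul]
      ring
    rw [e1, EH_sum hε' Finset.univ (fun k x => c k * (T x * (f k x).re))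
      (fun k => |c k| * (N * b k)) (fun k _ x => by
        rw [abs_mul, abs_mul]
        exact mul_le_mul_of_nonneg_left (mul_le_mul (hT x)
          ((Complex.abs_re_le_norm _).trans (hb k x)) (abs_nonneg _) hN) (abs_nonneg _)),
      Finset.sum_mul, ← Finset.sum_sub_distrib]
    refine Finset.sum_congr rfl fun k _ => ?_
    rw [EH_const_mul]
    ring

end supp

section tensor

variable {K : Type} [Field K] [NumberField K]

/-- **Twists by representations supported on an extension.** -/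
theorem tensor_bound {X : Variety K} {a : ℕ} (ha : a ≤ 2 * X.dim) {θ : WRep K} {N' : ℕ}
    (hθ : IsPart X a θ N') {F : Type} [Field F] [NumberField F] [Algebra K F] {κ : Type} [Fintype κ]
    {σ : κ → WRep K} (hF : ∀ k, SupportedOn (σ k) F) {B : κ → HeightOneSpectrum (𝓞 K) → ℂ[X]}
    (hB : ∀ k, IsTensor X a (σ k) (B k)) (c : κ → ℝ) {η : ℝ} (hη : 0 < η) :
    ∀ᶠ ε : ℝ in 𝓝[>] 0, (∑ k, c k * (size a (B k) ε - (σ k).inner θ)) ^ 2 ≤
      (N' : ℝ) ^ 2 / Nat.card (F ≃ₐ[K] F) * ∑ k, ∑ l, c k * c l * ((σ k).inner (σ l) : ℝ) + η :=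
  fam (F := F) (abs_cut X a θ N') (fun k => (σ k).bdd)
    (fun _ _ => WRep.gram Pool.Agent.N134.HS.t_nvq _ _) (aut_pos K F) (fun k => supp_tH (hF k))
    (z := fun k ε => size a (B k) ε - (σ k).inner θ) (fun k => defect ha hθ (hB k)) c hη

/-- **The size of the L-function of a product.** -/
theorem l2_size {X Y : Variety K} (hX : 1 ≤ X.dim) (hY : 1 ≤ Y.dim)
    {B : HeightOneSpectrum (𝓞 K) → ℂ[X]} (hB : IsL2 X Y B) :
    (∀ᶠ ε : ℝ in 𝓝[>] 0, LFun B (((2 : ℕ) : ℂ) / 2 + 1 + ε) ≠ 0) ∧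
    (fun ε => size 2 B ε * LL ε - EH K ε (fun x => TV X 2 (vx x) + TV Y 2 (vx x) +
      TV X 1 (vx x) * TV Y 1 (vx x))) =o[𝓝[>] 0] LL := by
  classical
  obtain ⟨hM, hB0⟩ := hB
  refine size_H (K := K)
    (ι := Fin (X.betti 2) ⊕ Fin (Y.betti 2) ⊕ (Fin (X.betti 1) × Fin (Y.betti 1)))
    (i := 2) B (fun v => TV X 2 v + TV Y 2 v + TV X 1 v * TV Y 1 v) ?_ hB0
    (D := X.betti 2 + Y.betti 2 + X.betti 1 * Y.betti 1) (fun x => ?_)
  · filter_upwards [hM] with v hv
    obtain ⟨α₁, α₂, β₁, β₂, h1, h2, h3, h4, h5⟩ := hv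
    have hq : (0 : ℝ) < nm K v := by
      have := two_le_nm v
      exact_mod_cast (by omega : 0 < nm K v)
    have hq' : ((nm K v : ℕ) : ℂ) ≠ 0 := by exact_mod_cast hq.ne'
    refine ⟨Sum.elim α₂ (Sum.elim β₂ fun l => α₁ l.1 * β₁ l.2), fun l => ?_, ?_, fun z => ?_⟩
    · rcases l with l | l | l
      · exact Eig.norm (X := X.eqs) (d := X.dim) h2 l
      · exact Eig.norm (X := Y.eqs) (d := Y.dim) h4 l
      · have e1 : ‖α₁ l.1‖ = (nm K v : ℝ) ^ (((1 : ℕ) : ℝ) / 2) :=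
          Eig.norm (X := X.eqs) (d := X.dim) h1 l.1
        have e2 : ‖β₁ l.2‖ = (nm K v : ℝ) ^ (((1 : ℕ) : ℝ) / 2) :=
          Eig.norm (X := Y.eqs) (d := Y.dim) h3 l.2
        simp only [Sum.elim_inr]
        rw [norm_mul, e1, e2, ← Real.rpow_add hq]
        congr 1
        norm_num
    · rw [Fintype.sum_sum_type, Fintype.sum_sum_type]
      simp only [Sum.elim_inl, Sum.elim_inr]
      have e1 := TV_eq X (i := 2) (by omega) h2
      have e2 := TV_eq Y (i := 2) (by omega) h4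
      have e3 := TV_eq X (i := 1) (by omega) h1
      have e4 := TV_eq Y (i := 1) (by omega) h3
      have e5 : ∑ l : Fin (X.betti 1) × Fin (Y.betti 1), α₁ l.1 * β₁ l.2 =
          (∑ j, α₁ j) * ∑ l, β₁ l := by
        rw [Finset.sum_mul_sum, ← Finset.univ_product_univ, Finset.sum_product]
      have e6 : ((nm K v : ℕ) : ℂ) ^ (-(((2 : ℕ) : ℂ) / 2)) =
          ((nm K v : ℕ) : ℂ) ^ (-(((1 : ℕ) : ℂ) / 2)) *
            ((nm K v : ℕ) : ℂ) ^ (-(((1 : ℕ) : ℂ) / 2)) := by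
        rw [← Complex.cpow_add _ _ hq']
        congr 1
        push_cast
        ring
      have e7 : ((TV X 2 v + TV Y 2 v + TV X 1 v * TV Y 1 v : ℝ) : ℂ) =
          (∑ j, α₂ j + (∑ l, β₂ l + ∑ l : Fin (X.betti 1) × Fin (Y.betti 1), α₁ l.1 * β₁ l.2)) *
            ((nm K v : ℕ) : ℂ) ^ (-(((2 : ℕ) : ℂ) / 2)) := by
        rw [Complex.ofReal_add, Complex.ofReal_add, Complex.ofReal_mul, e1, e2, e3, e4, e5, e6]
        ring
      rw [← e7, Complex.ofReal_re]
    · rw [h5, Fintype.prod_sum_type, Fintype.prod_sum_type]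
      simp only [Sum.elim_inl, Sum.elim_inr]
      rw [← Finset.univ_product_univ, Finset.prod_product, mul_assoc]
  · refine (abs_add_le _ _).trans (add_le_add ((abs_add_le _ _).trans
      (add_le_add (abs_TV X 2 _) (abs_TV Y 2 _))) ?_)
    rw [abs_mul]
    exact mul_le_mul (abs_TV X 1 _) (abs_TV Y 1 _) (abs_nonneg _) (Nat.cast_nonneg _)

/-- the trace on `H¹(Y)` -/
theorem h1_eq {Y : Variety K} (hY : 1 ≤ Y.dim) {s : ℕ} {σ : Fin s → WRep K} (h : IsH1 Y σ) :
    ∀ᶠ x : HX K in cofinite, TV Y 1 (vx x) = ∑ j, ((σ j).tH x).re := by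
  filter_upwards [eventually_HX h] with x hx
  obtain ⟨β, h1, h2⟩ := hx
  have e1 := TV_eq Y (i := 1) (by omega) h1
  have hq : (0 : ℝ) < nm K (vx x) := by
    have := two_le_nm (vx x)
    exact_mod_cast (by omega : 0 < nm K (vx x))
  have hq' : ((nm K (vx x) : ℕ) : ℂ) ≠ 0 := by exact_mod_cast hq.ne'
  have e2 : ((Ideal.absNorm (vx x).asIdeal : ℕ) : ℂ) = ((nm K (vx x) : ℕ) : ℂ) := rfl
  rw [h2, e2, mul_right_comm, ← Complex.cpow_add _ _ hq', add_neg_cancel, Complex.cpow_zero,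
    one_mul] at e1
  have e3 := congrArg Complex.re e1
  rw [Complex.ofReal_re, Complex.re_sum] at e3
  simp only [WRep.trace_vx] at e3
  exact e3

/-- the difference from the expected pole order -/
noncomputable def dz (θ : WRep K) {s : ℕ} (σ : Fin s → WRep K)
    (B A A' : HeightOneSpectrum (𝓞 K) → ℂ[X]) (ε : ℝ) : ℝ :=
  size 2 B ε - size 2 A ε - size 2 A' ε - ∑ j, ((σ j).inner θ : ℝ)

/-- **The defect of the product.** -/
theorem l2_defect {X Y : Variety K} (hX : 1 ≤ X.dim) (hY : 1 ≤ Y.dim)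
    {B : HeightOneSpectrum (𝓞 K) → ℂ[X]} (hB : IsL2 X Y B) {θ : WRep K} {N' : ℕ}
    (hθ : IsPart X 1 θ N') {s : ℕ} {σ : Fin s → WRep K} (hσ : IsH1 Y σ)
    {A A' : HeightOneSpectrum (𝓞 K) → ℂ[X]}
    (hA : IsEulerSystem X.eqs X.dim 2 (X.betti 2) A)
    (hA' : IsEulerSystem Y.eqs Y.dim 2 (Y.betti 2) A') :
    (fun ε => dz θ σ B A A' ε * LL ε -
      EH K ε (fun x => cut X 1 θ N' x * (∑ j, (σ j).tH x).re)) =o[𝓝[>] 0] LL := by
  classical
  have hρ : ∀ (ρ : WRep K) x, |(ρ.tH x).re| ≤ ρ.bd := fun ρ x =>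
    (Complex.abs_re_le_norm _).trans (ρ.norm_tH_le x)
  have h0 := (l2_size hX hY hB).2
  have h1 := euler_size (a := 2) (by omega) hA
  have h2 := euler_size (a := 2) (by omega) hA'
  have h3 := finset_isLittleO (Finset.univ : Finset (Fin s)) (fun j _ =>
    cut_corr (i := 1) (by omega) hθ (σ j))
  have b0 : ∀ x : HX K, |TV X 1 (vx x) * TV Y 1 (vx x)| ≤ X.betti 1 * Y.betti 1 := fun x => by
    rw [abs_mul]
    exact mul_le_mul (abs_TV X 1 _) (abs_TV Y 1 _) (abs_nonneg _) (Nat.cast_nonneg _)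
  have b1 : ∀ (j : Fin s) x, |TV X 1 (vx x) * ((σ j).tH x).re| ≤ X.betti 1 * (σ j).bd :=
    fun j x => by
      rw [abs_mul]
      exact mul_le_mul (abs_TV X 1 _) (hρ _ x) (abs_nonneg _) (Nat.cast_nonneg _)
  have b2 : ∀ (j : Fin s) x, |cut X 1 θ N' x * ((σ j).tH x).re| ≤ N' * (σ j).bd :=
    fun j x => by
      rw [abs_mul]
      exact mul_le_mul (abs_cut X 1 θ N' x) (hρ _ x) (abs_nonneg _) (Nat.cast_nonneg _)
  have h4 := EH_congr (K := K) (φ := fun x => TV X 1 (vx x) * TV Y 1 (vx x))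
    (φ' := fun x => ∑ j, TV X 1 (vx x) * ((σ j).tH x).re) (by
      filter_upwards [h1_eq hY hσ] with x hx
      rw [hx, Finset.mul_sum]) b0 (B' := ∑ j, X.betti 1 * (σ j).bd)
      (fun x => (Finset.abs_sum_le_sum_abs _ _).trans (Finset.sum_le_sum fun j _ => b1 j x))
  refine ((((h0.sub h1).sub h2).add h4).add h3).congr' ?_ (EventuallyEq.refl _ _)
  filter_upwards [self_mem_nhdsWithin] with ε hε
  have hε' : (0 : ℝ) < ε := hε
  have b3 : ∀ x : HX K, |TV X 2 (vx x) + TV Y 2 (vx x)| ≤ X.betti 2 + Y.betti 2 := fun x =>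
    (abs_add_le _ _).trans (add_le_add (abs_TV X 2 _) (abs_TV Y 2 _))
  have e1 : EH K ε (fun x => TV X 2 (vx x) + TV Y 2 (vx x) + TV X 1 (vx x) * TV Y 1 (vx x)) =
      EH K ε (fun x => TV X 2 (vx x)) + EH K ε (fun x => TV Y 2 (vx x)) +
        EH K ε (fun x => TV X 1 (vx x) * TV Y 1 (vx x)) := by
    rw [EH_add hε' b3 b0, EH_add hε' (fun x => abs_TV X 2 _) (fun x => abs_TV Y 2 _)]
  have e2 : EH K ε (fun x => ∑ j, TV X 1 (vx x) * ((σ j).tH x).re) =
      ∑ j, EH K ε (fun x => TV X 1 (vx x) * ((σ j).tH x).re) :=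
    EH_sum hε' Finset.univ (fun j x => TV X 1 (vx x) * ((σ j).tH x).re)
      (fun j => X.betti 1 * (σ j).bd) (fun j _ x => b1 j x)
  have e3 : EH K ε (fun x => cut X 1 θ N' x * (∑ j, (σ j).tH x).re) =
      ∑ j, EH K ε (fun x => cut X 1 θ N' x * ((σ j).tH x).re) := by
    have e4 : (fun x : HX K => cut X 1 θ N' x * (∑ j, (σ j).tH x).re) =
        fun x => ∑ j, cut X 1 θ N' x * ((σ j).tH x).re := by
      funext x
      rw [Complex.re_sum, Finset.mul_sum]
    rw [e4]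
    exact EH_sum hε' Finset.univ (fun j x => cut X 1 θ N' x * ((σ j).tH x).re)
      (fun j => N' * (σ j).bd) (fun j _ x => b2 j x)
  rw [e1, e2, e3]
  unfold dz
  simp only [Finset.sum_sub_distrib, sub_mul, Finset.sum_mul]
  ring

end tensor

end Pool.Agent.L7h11.GG
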