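import Pool.Agent.N172.HS.Pq

/-!
# Correlations with a function supported on the primes which have a factor of degree one in `F`
-/

set_option autoImplicit false
set_option linter.unusedSectionVars false

namespace Pool.Agent.L7h11.GG

open NumberField Complex Filter Topology IsDedekindDomain Asymptotics Polynomial
open Pool.Agent.N172.HS
open Pool.Agent.W353.TP (HX sysH LL LL_tendsto bdd_isLittleO push res lamS_sub push_abs_le
  final_ineq E_mono)
open Pool.Agent.W353.NF (vx)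
open scoped ComplexConjugate

section count

variable (K F : Type) [Field K] [NumberField K] [Field F] [NumberField F] [Algebra K F]

/-- the number of the primes of degree one of `F` above -/
noncomputable def nn (x : HX K) : ℝ := push K (F := F) (fun _ : HX F => (1 : ℝ)) x

theorem nn_eq (x : HX K) : ∃ S : Finset (𝓞 F →+* ZMod (x.1 : ℕ)),
    (∀ ψ, ψ ∈ S ↔ res K ψ = x.2) ∧ nn K F x = S.card := by
  classical
  refine ⟨Finset.univ.filter (fun ψ : 𝓞 F →+* ZMod (x.1 : ℕ) => res K ψ = x.2), fun ψ => ?_, ?_⟩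
  · rw [Finset.mem_filter]
    exact ⟨fun h => h.2, fun h => ⟨Finset.mem_univ _, h⟩⟩
  · unfold nn push
    rw [Finset.sum_const, nsmul_eq_mul, mul_one]

theorem nn_nonneg (x : HX K) : 0 ≤ nn K F x := by
  obtain ⟨S, -, h⟩ := nn_eq K F x
  rw [h]
  exact Nat.cast_nonneg _

theorem abs_nn_le (x : HX K) : |nn K F x| ≤ Module.finrank ℚ F * 1 :=
  push_abs_le (fun _ => by rw [abs_one]) x

/-- the mean value of the number of primes above -/
theorem mean_nn : (fun ε => EH K ε (nn K F) - LL ε) =o[𝓝[>] 0] LL := by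
  refine (lamS_sub (sysH F)).congr' ?_ (EventuallyEq.refl _ _)
  filter_upwards [self_mem_nhdsWithin] with ε hε
  have hε' : (0 : ℝ) < ε := hε
  rw [← EH_one, EH_push' (K := K) hε' (h := fun _ : HX F => (1 : ℝ)) (B := 1)
    (fun _ => by rw [abs_one])]
  rfl

variable {K F}

/-- only finitely many primes of degree one contain a nonzero element -/
theorem finite_zero {δ : 𝓞 F} (hδ : δ ≠ 0) : {y : HX F | y.2 δ = 0}.Finite := by
  have h1 : {v : HeightOneSpectrum (𝓞 F) | v.asIdeal ∣ Ideal.span {δ}}.Finite :=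
    Ideal.finite_factors (by rwa [Ne, Ideal.zero_eq_bot, Ideal.span_singleton_eq_bot])
  refine (h1.preimage (f := fun y : HX F => vx y) (vx_injective.injOn)).subset ?_
  intro y hy
  change (vx y).asIdeal ∣ Ideal.span {δ}
  rw [Ideal.dvd_span_singleton]
  exact hy

/-- restriction of the primes of degree one -/
noncomputable def down (y : HX F) : HX K := ⟨y.1, res K y.2⟩

theorem mapRingHom_alg (σ : F ≃ₐ[K] F) (z : 𝓞 K) :
    RingOfIntegers.mapRingHom (σ : F →+* F) (algebraMap (𝓞 K) (𝓞 F) z) =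
      algebraMap (𝓞 K) (𝓞 F) z := by
  apply RingOfIntegers.ext
  change (σ : F →+* F) (algebraMap (𝓞 F) F (algebraMap (𝓞 K) (𝓞 F) z)) =
    algebraMap (𝓞 F) F (algebraMap (𝓞 K) (𝓞 F) z)
  rw [← IsScalarTower.algebraMap_apply (𝓞 K) (𝓞 F) F,
    IsScalarTower.algebraMap_apply (𝓞 K) K F]
  exact σ.commutes _

/-- the automorphisms of `F` over `K` act freely on the primes of degree one -/
theorem nn_ge : ∀ᶠ x : HX K in cofinite, nn K F x < Nat.card (F ≃ₐ[K] F) → nn K F x = 0 := by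
  classical
  have hfd : FiniteDimensional K F := Module.Finite.of_restrictScalars_finite ℚ K F
  have hfin : Finite (F ≃ₐ[K] F) := inferInstance
  have := Fintype.ofFinite (F ≃ₐ[K] F)
  -- the exceptional primes
  have h1 : ∀ σ τ : F ≃ₐ[K] F, σ ≠ τ → ∃ β : 𝓞 F,
      RingOfIntegers.mapRingHom (σ : F →+* F) β - RingOfIntegers.mapRingHom (τ : F →+* F) β ≠ 0 := by
    intro σ τ h
    by_contra hcon
    push Not at hcon
    apply h
    apply AlgEquiv.ext
    intro a
    obtain ⟨b, c, -, rfl⟩ := IsFractionRing.div_surjective (A := 𝓞 F) a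
    have h2 : ∀ β : 𝓞 F, σ (algebraMap (𝓞 F) F β) = τ (algebraMap (𝓞 F) F β) := by
      intro β
      have h3 := sub_eq_zero.1 (hcon β)
      exact congrArg (algebraMap (𝓞 F) F) h3
    rw [map_div₀, map_div₀, h2, h2]
  choose! β hβ using h1
  set bad : Set (HX F) := {y : HX F | ∃ σ τ : F ≃ₐ[K] F, σ ≠ τ ∧
      y.2 (RingOfIntegers.mapRingHom (σ : F →+* F) (β σ τ) -
        RingOfIntegers.mapRingHom (τ : F →+* F) (β σ τ)) = 0} with hbad
  have h2 : bad.Finite := by
    have h3 : (⋃ s : {s : (F ≃ₐ[K] F) × (F ≃ₐ[K] F) // s.1 ≠ s.2},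
        {y : HX F | y.2 (RingOfIntegers.mapRingHom (s.1.1 : F →+* F) (β s.1.1 s.1.2) -
        RingOfIntegers.mapRingHom (s.1.2 : F →+* F) (β s.1.1 s.1.2)) = 0}).Finite :=
      Set.finite_iUnion fun s => finite_zero (hβ _ _ s.2)
    refine h3.subset ?_
    rintro y ⟨σ, τ, h4, h5⟩
    exact Set.mem_iUnion.2 ⟨⟨(σ, τ), h4⟩, h5⟩
  have h3 : ∀ᶠ x : HX K in cofinite, x ∉ down (K := K) '' bad :=
    (h2.image (down (K := K))).eventually_cofinite_notMem
  filter_upwards [h3] with x hx hlt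
  obtain ⟨S, hS, hn⟩ := nn_eq K F x
  rw [hn] at hlt ⊢
  by_contra hne
  have hpos : S.Nonempty := by
    rw [Finset.nonempty_iff_ne_empty]
    intro h
    apply hne
    rw [h, Finset.card_empty, Nat.cast_zero]
  obtain ⟨ψ, hψ⟩ := hpos
  have hcard : Nat.card (F ≃ₐ[K] F) ≤ S.card := by
    rw [Nat.card_eq_fintype_card, ← Finset.card_univ]
    refine Finset.card_le_card_of_injOn
      (fun σ : F ≃ₐ[K] F => ψ.comp (RingOfIntegers.mapRingHom (σ : F →+* F))) ?_ ?_
    · intro σ _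
      rw [Finset.mem_coe, hS]
      apply RingHom.ext
      intro z
      change ψ (RingOfIntegers.mapRingHom (σ : F →+* F) (algebraMap (𝓞 K) (𝓞 F) z)) = x.2 z
      rw [mapRingHom_alg, ← (hS ψ).1 hψ]
      rfl
    · intro σ _ τ _ h
      by_contra hne
      apply hx
      refine ⟨⟨x.1, ψ⟩, ⟨σ, τ, hne, ?_⟩, ?_⟩
      · rw [map_sub]
        exact sub_eq_zero.2 (RingHom.congr_fun h (β σ τ))
      · unfold down
        simp only
        rw [(hS ψ).1 hψ]
  exact absurd (Nat.cast_le.2 hcard) (not_le.2 hlt)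

end count

section corr

variable {K F : Type} [Field K] [NumberField K] [Field F] [NumberField F] [Algebra K F]

theorem EH_mono {ε : ℝ} (hε : 0 < ε) {φ ψ : HX K → ℝ} {B B' : ℝ} (hφ : ∀ p, |φ p| ≤ B)
    (hψ : ∀ p, |ψ p| ≤ B') (h : ∀ p, φ p ≤ ψ p) : EH K ε φ ≤ EH K ε ψ :=
  E_mono (sysH K) hε hφ hψ h

/-- Cauchy's inequality -/
theorem EH_cs {φ ψ : HX K → ℝ} {B B' : ℝ} (hφ : ∀ x, |φ x| ≤ B) (hψ : ∀ x, |ψ x| ≤ B') {ε : ℝ}
    (hε : 0 < ε) : (EH K ε (fun x => φ x * ψ x)) ^ 2 ≤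
      EH K ε (fun x => φ x ^ 2) * EH K ε (fun x => ψ x ^ 2) := by
  have hB : 0 ≤ B := (abs_nonneg _).trans (hφ ((sysH K).nonempty.some))
  have b1 : ∀ x, |φ x ^ 2| ≤ B ^ 2 := fun x => by
    rw [abs_pow]
    exact pow_le_pow_left₀ (abs_nonneg _) (hφ x) 2
  have b2 : ∀ x, |ψ x ^ 2| ≤ B' ^ 2 := fun x => by
    rw [abs_pow]
    exact pow_le_pow_left₀ (abs_nonneg _) (hψ x) 2
  have b3 : ∀ x, |φ x * ψ x| ≤ B * B' := fun x => by
    rw [abs_mul]
    exact mul_le_mul (hφ x) (hψ x) (abs_nonneg _) hB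
  have h : ∀ s : ℝ, 0 ≤ EH K ε (fun x => φ x ^ 2) * (s * s) +
      (2 * EH K ε (fun x => φ x * ψ x)) * s + EH K ε (fun x => ψ x ^ 2) := by
    intro s
    have h0 : 0 ≤ EH K ε (fun x => (s * φ x + ψ x) ^ 2) :=
      EH_nonneg (fun x => sq_nonneg _) ε
    have e : (fun x => (s * φ x + ψ x) ^ 2) =
        fun x => (s ^ 2 * φ x ^ 2 + (2 * s) * (φ x * ψ x)) + ψ x ^ 2 := by
      funext x
      ring
    have b4 : ∀ x, |s ^ 2 * φ x ^ 2| ≤ s ^ 2 * B ^ 2 := fun x => by
      rw [abs_mul, abs_of_nonneg (sq_nonneg s)]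
      exact mul_le_mul_of_nonneg_left (b1 x) (sq_nonneg s)
    have b5 : ∀ x, |(2 * s) * (φ x * ψ x)| ≤ |2 * s| * (B * B') := fun x => by
      rw [abs_mul]
      exact mul_le_mul_of_nonneg_left (b3 x) (abs_nonneg _)
    rw [e, EH_add hε (fun x => (abs_add_le _ _).trans (add_le_add (b4 x) (b5 x))) b2,
      EH_add hε b4 b5, EH_const_mul, EH_const_mul] at h0
    linarith
  have h1 := discrim_le_zero h
  unfold discrim at h1
  nlinarith [h1]

open Classical in
/-- **The correlation with a function which is supported on the primes that have a factor of degree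
one in an extension with many automorphisms.** -/
theorem corr_fn {T : HX K → ℝ} {N : ℝ} (hT : ∀ x, |T x| ≤ N) {W : HX K → ℂ} (hW : Bdd W) {g : ℝ}
    (hg : HasGram W W g) {m : ℕ} (hm : 0 < m)
    (hs : ∀ᶠ x : HX K in cofinite, nn K F x < m → W x = 0) {z : ℝ → ℝ}
    (hz : (fun ε => z ε * LL ε - EH K ε (fun x => T x * (W x).re)) =o[𝓝[>] 0] LL) {η : ℝ}
    (hη : 0 < η) : ∀ᶠ ε : ℝ in 𝓝[>] 0, z ε ^ 2 ≤ N ^ 2 / m * g + η := by
  obtain ⟨b, hb0, hb⟩ := hW
  have hN : 0 ≤ N := (abs_nonneg _).trans (hT ((sysH K).nonempty.some))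
  set T' : HX K → ℝ := fun x => if (m : ℝ) ≤ nn K F x then T x else 0 with hT'
  have hT'b : ∀ x, |T' x| ≤ N := by
    intro x
    rw [hT']
    simp only
    split_ifs
    · exact hT x
    · rw [abs_zero]; exact hN
  have hre : ∀ x, |(W x).re| ≤ b := fun x => (Complex.abs_re_le_norm _).trans (hb x)
  have c1 : ∀ x, |T x * (W x).re| ≤ N * b := fun x => by
    rw [abs_mul]
    exact mul_le_mul (hT x) (hre x) (abs_nonneg _) hN
  have c2 : ∀ x, |T' x * (W x).re| ≤ N * b := fun x => by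
    rw [abs_mul]
    exact mul_le_mul (hT'b x) (hre x) (abs_nonneg _) hN
  have h1 := EH_congr (K := K) (φ := fun x => T x * (W x).re) (φ' := fun x => T' x * (W x).re) (by
    filter_upwards [hs] with x hx
    rw [hT']
    simp only
    split_ifs with h
    · rfl
    · rw [hx (not_le.1 h), Complex.zero_re, mul_zero, mul_zero]) c1 c2
  have hm' : (0 : ℝ) < m := Nat.cast_pos.2 hm
  have h2 : ∀ᶠ ε : ℝ in 𝓝[>] 0, (EH K ε (fun x => T' x * (W x).re)) ^ 2 ≤
      N ^ 2 / m * (EH K ε (nn K F) * EH K ε (fun x => (W x * conj (W x)).re)) := by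
    filter_upwards [self_mem_nhdsWithin] with ε hε
    have hε' : (0 : ℝ) < ε := hε
    refine (EH_cs hT'b hre hε').trans ?_
    have d1 : ∀ x, |T' x ^ 2| ≤ N ^ 2 := fun x => by
      rw [abs_pow]
      exact pow_le_pow_left₀ (abs_nonneg _) (hT'b x) 2
    have d2 : ∀ x, |(W x).re ^ 2| ≤ b ^ 2 := fun x => by
      rw [abs_pow]
      exact pow_le_pow_left₀ (abs_nonneg _) (hre x) 2
    have d3 : ∀ x, |N ^ 2 / m * nn K F x| ≤ N ^ 2 / m * (Module.finrank ℚ F * 1) := fun x => by
      rw [abs_mul, abs_of_nonneg (by positivity : 0 ≤ N ^ 2 / m)]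
      exact mul_le_mul_of_nonneg_left (abs_nn_le K F x) (by positivity)
    have d4 : ∀ x, |(W x * conj (W x)).re| ≤ b * b := fun x => by
      refine (Complex.abs_re_le_norm _).trans ?_
      rw [norm_mul, Complex.norm_conj]
      exact mul_le_mul (hb x) (hb x) (norm_nonneg _) hb0
    have e1 : EH K ε (fun x => T' x ^ 2) ≤ N ^ 2 / m * EH K ε (nn K F) := by
      rw [← EH_const_mul]
      refine EH_mono hε' d1 d3 fun x => ?_
      rw [hT']
      simp only
      split_ifs with h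
      · have h3 : T x ^ 2 ≤ N ^ 2 := by
          rw [← sq_abs]
          exact pow_le_pow_left₀ (abs_nonneg _) (hT x) 2
        calc T x ^ 2 ≤ N ^ 2 := h3
          _ = N ^ 2 / m * m := by field_simp
          _ ≤ N ^ 2 / m * nn K F x := mul_le_mul_of_nonneg_left h (by positivity)
      · have := nn_nonneg K F x
        rw [zero_pow two_ne_zero]
        positivity
    have e2 : EH K ε (fun x => (W x).re ^ 2) ≤ EH K ε (fun x => (W x * conj (W x)).re) := by
      refine EH_mono hε' d2 d4 fun x => ?_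
      rw [Complex.mul_conj, Complex.ofReal_re, Complex.normSq_apply]
      nlinarith [mul_self_nonneg (W x).im]
    have e3 : 0 ≤ EH K ε (fun x => (W x).re ^ 2) := EH_nonneg (fun x => sq_nonneg _) ε
    have e4 : 0 ≤ EH K ε (nn K F) := EH_nonneg (fun x => nn_nonneg K F x) ε
    calc EH K ε (fun x => T' x ^ 2) * EH K ε (fun x => (W x).re ^ 2) ≤
        (N ^ 2 / m * EH K ε (nn K F)) * EH K ε (fun x => (W x * conj (W x)).re) :=
          mul_le_mul e1 e2 e3 (by positivity)
      _ = _ := by ring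
  have h3 : (fun ε => z ε * LL ε - EH K ε (fun x => T' x * (W x).re)) =o[𝓝[>] 0] LL := by
    refine (hz.add h1).congr_left fun ε => ?_
    ring
  have h4 := final_ineq h3 h2 (mean_nn K F) hg hη
  filter_upwards [h4, LL_tendsto.eventually_gt_atTop 0] with ε h5 h6
  rwa [mul_div_cancel_right₀ _ h6.ne'] at h5

end corr

end Pool.Agent.L7h11.GG
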